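import Mathlib
import Pool.Agent.Helper14D.Stm

set_option autoImplicit false

open MvPolynomial

namespace Pool.Agent.Helper16.VD

/-- homogeneous components of a product with a homogeneous factor -/
theorem hc_mul {k X : Type} [Field k] (p g : MvPolynomial X k) (b : ℕ) (hg : g.IsHomogeneous b)
    (a : ℕ) : homogeneousComponent (a + b) (p * g) = homogeneousComponent a p * g := by
  conv_lhs => rw [← sum_homogeneousComponent p, Finset.sum_mul, map_sum]
  have h : ∀ i ∈ Finset.range (p.totalDegree + 1),
      homogeneousComponent (a + b) (homogeneousComponent i p * g)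
        = if i = a then homogeneousComponent i p * g else 0 := by
    intro i _
    have h1 : (homogeneousComponent i p * g) ∈ homogeneousSubmodule X k (i + b) :=
      (mem_homogeneousSubmodule _ _).2 ((homogeneousComponent_isHomogeneous i p).mul hg)
    rw [homogeneousComponent_of_mem h1]
    by_cases hi : i = a
    · subst hi; simp
    · rw [if_neg, if_neg hi]
      omega
  rw [Finset.sum_congr rfl h, Finset.sum_ite_eq']
  split_ifs with h2
  · rfl
  · rw [homogeneousComponent_eq_zero, zero_mul]
    simp at h2
    omega

/-- homogeneous components of a polynomial in forms of degree `D0` -/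
theorem hc_aeval {k σ X : Type} [Field k] (y : σ → MvPolynomial X k) (D0 : ℕ) (hD : 0 < D0)
    (hy : ∀ j, (y j).IsHomogeneous D0) (p : MvPolynomial σ k) (a : ℕ) :
    homogeneousComponent (D0 * a) (aeval y p) = aeval y (homogeneousComponent a p) := by
  conv_lhs => rw [← sum_homogeneousComponent p, map_sum, map_sum]
  have h : ∀ i ∈ Finset.range (p.totalDegree + 1),
      homogeneousComponent (D0 * a) (aeval y (homogeneousComponent i p))
        = if i = a then aeval y (homogeneousComponent i p) else 0 := by
    intro i _
    have h1 : aeval y (homogeneousComponent i p) ∈ homogeneousSubmodule X k (D0 * i) :=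
      (mem_homogeneousSubmodule _ _).2 ((homogeneousComponent_isHomogeneous i p).aeval y hy)
    rw [homogeneousComponent_of_mem h1]
    by_cases hi : i = a
    · subst hi; simp
    · rw [if_neg, if_neg hi]
      intro h3
      exact hi (Nat.eq_of_mul_eq_mul_left hD h3).symm
  rw [Finset.sum_congr rfl h, Finset.sum_ite_eq']
  split_ifs with h2
  · rfl
  · rw [homogeneousComponent_eq_zero, map_zero]
    simp at h2
    omega

/-- the homogeneous part of an equation -/
theorem hom_eq {k σ X : Type} [Field k] (y : σ → MvPolynomial X k) (D0 e : ℕ) (hD : 0 < D0)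
    (hy : ∀ j, (y j).IsHomogeneous D0) (g : MvPolynomial X k) (hg : g.IsHomogeneous (e * D0))
    (n : ℕ) (B : ℕ → MvPolynomial σ k)
    (h : g ^ n + ∑ j ∈ Finset.range n, aeval y (B j) * g ^ j = 0) :
    g ^ n + ∑ j ∈ Finset.range n,
      aeval y (homogeneousComponent (e * (n - j)) (B j)) * g ^ j = 0 := by
  have h1 := congrArg (homogeneousComponent (e * D0 * n)) h
  rw [map_add, map_sum, map_zero, homogeneousComponent_of_mem (n := e * D0 * n)
    ((mem_homogeneousSubmodule _ _).2 (hg.pow n)), if_pos rfl] at h1
  rw [← h1]
  congr 1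
  apply Finset.sum_congr rfl
  intro j hj
  rw [Finset.mem_range] at hj
  have h2 : e * D0 * n = D0 * (e * (n - j)) + e * D0 * j := by
    obtain ⟨d, rfl⟩ : ∃ d, n = j + d := ⟨n - j, by omega⟩
    have : j + d - j = d := by omega
    rw [this]; ring
  rw [h2, hc_mul _ _ _ (hg.pow j), hc_aeval y D0 hD hy]

theorem mem_range {k S ι : Type} [Field k] [CommRing S] [Algebra k S] (y : ι → S) (z : S)
    (hz : z ∈ Algebra.adjoin k (Set.range y)) : ∃ B : MvPolynomial ι k, aeval y B = z := by
  rw [Algebra.adjoin_range_eq_range_aeval] at hz
  exact hz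

theorem t_homint : Helper14D.S_homint := by
  intro k _ σ X _ y D0 e g hD hy hg hint
  obtain ⟨p, hp, hpe⟩ := hint
  have hmem : ∀ j, ∃ B : MvPolynomial σ k, aeval y B = ((p.coeff j : Algebra.adjoin k (Set.range y)) :
      MvPolynomial X k) := by
    intro j
    exact mem_range y _ (p.coeff j).2
  choose B hB using hmem
  have h0 : g ^ p.natDegree + ∑ j ∈ Finset.range p.natDegree, aeval y (B j) * g ^ j = 0 := by
    rw [← hpe, Polynomial.eval₂_eq_sum_range, Finset.sum_range_succ, add_comm]
    congr 1
    · apply Finset.sum_congr rfl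
      intro j _
      rw [hB]; rfl
    · rw [Polynomial.Monic.coeff_natDegree hp, map_one, one_mul]
  have hn : 0 < p.natDegree := by
    rcases Nat.eq_zero_or_pos p.natDegree with h | h
    · rw [h] at h0; simp at h0
    · exact h
  have h1 := hom_eq y D0 e hD hy g hg _ B h0
  refine ⟨p.natDegree, fun i => homogeneousComponent (e * i) (B (p.natDegree - i)), hn,
    fun i => homogeneousComponent_isHomogeneous _ _, ?_⟩
  rw [← h1]
  congr 1
  rw [← Finset.sum_range_reflect]
  apply Finset.sum_congr rfl
  intro j hj
  rw [Finset.mem_range] at hj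
  have h2 : p.natDegree - 1 - j + 1 = p.natDegree - j := by omega
  have h3 : p.natDegree - (p.natDegree - j) = j := by omega
  have h4 : p.natDegree - 1 - (p.natDegree - 1 - j) = j := by omega
  simp only [h2, h3, h4]

open IntermediateField.algebraAdjoinAdjoin in
/-- the minimal polynomial with coefficients in a polynomial ring -/
theorem key {k S E ι : Type} [Field k] [CommRing S] [IsDomain S] [Algebra k S] [Field E]
    [Algebra k E] [Algebra S E] [IsScalarTower k S E] [IsFractionRing S E] (y : ι → S)
    (hy : AlgebraicIndependent k y) (s : S) (hs : IsIntegral (Algebra.adjoin k (Set.range y)) s) :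
    ∃ P : Polynomial (MvPolynomial ι k), P.Monic ∧
      P.eval₂ (aeval y : MvPolynomial ι k →ₐ[k] S).toRingHom s = 0 ∧
      (∀ Q : Polynomial (MvPolynomial ι k),
        Q.eval₂ (aeval y : MvPolynomial ι k →ₐ[k] S).toRingHom s = 0 → P ∣ Q) ∧
      P.natDegree ∣ Module.finrank
        (IntermediateField.adjoin k (Set.range fun j => algebraMap S E (y j))) E := by
  classical
  set y' : ι → E := fun j => algebraMap S E (y j) with hy'
  have hinj : Function.Injective (algebraMap S E) := IsFractionRing.injective S E
  have hyi : AlgebraicIndependent k y' := by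
    have := hy.map' (f := IsScalarTower.toAlgHom k S E) (by simpa using hinj)
    exact this
  set A := Algebra.adjoin k (Set.range y') with hA
  set K := IntermediateField.adjoin k (Set.range y') with hK
  let f : MvPolynomial ι k ≃ₐ[k] A := hyi.aevalEquiv
  have hf : ∀ p, ((f p : A) : E) = algebraMap S E (aeval y p) := by
    intro p
    have h1 := hyi.algebraMap_aevalEquiv p
    have h2 : algebraMap S E (aeval y p) = aeval y' p := by
      rw [hy']
      exact (aeval_algebraMap_apply E y p).symm
    rw [h2, ← h1]; rfl
  have : IsIntegrallyClosed A := IsIntegrallyClosed.of_equiv f.toRingEquiv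
  -- integrality
  have hsA : IsIntegral A (algebraMap S E s) := by
    obtain ⟨p, hp, hpe⟩ := hs
    have hmem : ∀ x : Algebra.adjoin k (Set.range y), ∃ a : A, (a : E) = algebraMap S E x := by
      intro x
      obtain ⟨B, hB⟩ := mem_range y _ x.2
      refine ⟨f B, ?_⟩
      rw [hf, ← hB]
    let φ : Algebra.adjoin k (Set.range y) →+* A :=
      RingHom.codRestrict ((algebraMap S E).comp (Algebra.adjoin k (Set.range y)).val.toRingHom)
        A.toSubring (fun x => by
          obtain ⟨a, ha⟩ := hmem x
          have : ((algebraMap S E).comp (Algebra.adjoin k (Set.range y)).val.toRingHom) x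
            = (a : E) := ha.symm
          rw [this]; exact a.2)
    refine ⟨p.map φ, hp.map φ, ?_⟩
    rw [Polynomial.eval₂_map]
    have h3 : (algebraMap A E).comp φ = (algebraMap S E).comp
        (algebraMap (Algebra.adjoin k (Set.range y)) S) := by
      ext x; rfl
    rw [h3, ← Polynomial.hom_eval₂, hpe, map_zero]
  have hQ : ∀ Q : Polynomial (MvPolynomial ι k),
      Polynomial.aeval (algebraMap S E s) (Q.map (f : MvPolynomial ι k →+* A))
        = algebraMap S E (Q.eval₂ (aeval y : MvPolynomial ι k →ₐ[k] S).toRingHom s) := by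
    intro Q
    rw [Polynomial.aeval_def, Polynomial.eval₂_map, Polynomial.hom_eval₂]
    congr 1
    ext x
    · simp only [RingHom.coe_comp, Function.comp_apply, RingHom.coe_coe]
      change ((f (C x) : A) : E) = algebraMap S E (aeval y (C x))
      exact hf (C x)
    · exact hf (X x)
  have hmap : ∀ Q : Polynomial A, (Q.map (f.symm : A →+* MvPolynomial ι k)).map
      (f : MvPolynomial ι k →+* A) = Q := by
    intro Q
    rw [Polynomial.map_map]
    have : (f : MvPolynomial ι k →+* A).comp (f.symm : A →+* MvPolynomial ι k)
        = RingHom.id A := by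
      ext x; simp
    rw [this, Polynomial.map_id]
  have hmap' : ∀ Q : Polynomial (MvPolynomial ι k), (Q.map (f : MvPolynomial ι k →+* A)).map
      (f.symm : A →+* MvPolynomial ι k) = Q := by
    intro Q
    rw [Polynomial.map_map]
    have : (f.symm : A →+* MvPolynomial ι k).comp (f : MvPolynomial ι k →+* A)
        = RingHom.id _ := by
      ext x <;> simp
    rw [this, Polynomial.map_id]
  have hmon := minpoly.monic hsA
  refine ⟨(minpoly A (algebraMap S E s)).map (f.symm : A →+* MvPolynomial ι k),
    hmon.map _, ?_, ?_, ?_⟩
  · apply hinj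
    rw [← hQ, hmap, minpoly.aeval, map_zero]
  · intro Q h
    have h1 : minpoly A (algebraMap S E s) ∣ Q.map (f : MvPolynomial ι k →+* A) := by
      apply minpoly.isIntegrallyClosed_dvd hsA
      rw [hQ, h, map_zero]
    have h2 := Polynomial.map_dvd (f.symm : A →+* MvPolynomial ι k) h1
    rwa [hmap'] at h2
  · rw [hmon.natDegree_map]
    have h1 : minpoly K (algebraMap S E s) = (minpoly A (algebraMap S E s)).map (algebraMap A K) :=
      minpoly.isIntegrallyClosed_eq_field_fractions' K hsA
    have h2 : (minpoly K (algebraMap S E s)).natDegree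
        = (minpoly A (algebraMap S E s)).natDegree := by
      rw [h1, hmon.natDegree_map]
    rw [← h2]
    exact minpoly.degree_dvd (hsA.tower_top)

theorem t_norm : Helper14D.S_norm := by
  intro k _ _ N y D0 hD hy hind hfin s q hs hint
  obtain ⟨P, hP, hPs, hPd, hPn⟩ := key (E := FractionRing (MvPolynomial (Fin (N + 1)) k)) y hind s
    hint
  set n := P.natDegree with hn
  have h0 : s ^ n + ∑ j ∈ Finset.range n, aeval y (P.coeff j) * s ^ j = 0 := by
    rw [← hPs, Polynomial.eval₂_eq_sum_range, Finset.sum_range_succ, add_comm (s ^ n)]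
    congr 1
    have hc : P.coeff P.natDegree = 1 := hP
    rw [hc, map_one, one_mul]
  have hn0 : 0 < n := by
    rcases Nat.eq_zero_or_pos n with h | h
    · rw [h] at h0; simp at h0
    · exact h
  have h1 := hom_eq y D0 q hD hy s hs _ _ h0
  -- the homogenised polynomial
  set P' : Polynomial (MvPolynomial (Fin (N + 1)) k) := Polynomial.X ^ n +
    ∑ j ∈ Finset.range n, Polynomial.C (homogeneousComponent (q * (n - j)) (P.coeff j)) *
      Polynomial.X ^ j with hP'
  have hdeg : (∑ j ∈ Finset.range n, Polynomial.C (homogeneousComponent (q * (n - j))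
      (P.coeff j)) * Polynomial.X ^ j).degree < (n : WithBot ℕ) := by
    rw [← Polynomial.mem_degreeLT]
    refine Submodule.sum_mem _ fun j hj => ?_
    rw [Polynomial.mem_degreeLT]
    refine lt_of_le_of_lt (Polynomial.degree_C_mul_X_pow_le _ _) ?_
    exact_mod_cast Finset.mem_range.1 hj
  have hPm : P'.Monic := Polynomial.monic_X_pow_add hdeg
  have hPnd : P'.natDegree = n := by
    apply Polynomial.natDegree_eq_of_degree_eq_some
    rw [hP', Polynomial.degree_add_eq_left_of_degree_lt, Polynomial.degree_X_pow]
    rwa [Polynomial.degree_X_pow]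
  have h2 : P'.eval₂ (aeval y : MvPolynomial (Fin (N + 1)) k →ₐ[k] _).toRingHom s = 0 := by
    rw [← h1, hP', Polynomial.eval₂_add, Polynomial.eval₂_pow, Polynomial.eval₂_X,
      Polynomial.eval₂_finsetSum]
    congr 1
    apply Finset.sum_congr rfl
    intro j _
    rw [Polynomial.eval₂_mul, Polynomial.eval₂_C, Polynomial.eval₂_pow, Polynomial.eval₂_X]
    rfl
  have h3 : P = P' := by
    symm
    apply Polynomial.eq_of_monic_of_dvd_of_natDegree_le hP hPm (hPd _ h2)
    rw [hPnd]
  have h4 : P.coeff 0 = homogeneousComponent (q * n) (P.coeff 0) := by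
    conv_lhs => rw [h3, hP']
    rw [Polynomial.coeff_add, Polynomial.coeff_X_pow, if_neg (by omega), zero_add,
      Polynomial.finsetSum_coeff, Finset.sum_eq_single 0]
    · simp
    · intro j _ hj
      rw [Polynomial.coeff_C_mul_X_pow, if_neg (by omega)]
    · intro h; exact absurd (Finset.mem_range.2 hn0) h
  refine ⟨n, P.coeff 0, hn0, ?_, hPn, ?_⟩
  · rw [h4]; exact homogeneousComponent_isHomogeneous _ _
  · intro F hF
    set Q : Polynomial (MvPolynomial (Fin (N + 1)) k) :=
      aeval (fun o => Option.elim o Polynomial.X (fun i => Polynomial.C (X i))) F with hQ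
    have h5 : Q.eval₂ (aeval y : MvPolynomial (Fin (N + 1)) k →ₐ[k] _).toRingHom s
        = aeval (fun o => Option.elim o s y) F := by
      have h : (Polynomial.eval₂RingHom (aeval y : MvPolynomial (Fin (N + 1)) k →ₐ[k]
          MvPolynomial (Fin (N + 1)) k).toRingHom s).comp
          (aeval (fun o => Option.elim o Polynomial.X (fun i => Polynomial.C (X i))) :
            MvPolynomial (Option (Fin (N + 1))) k →ₐ[k]
              Polynomial (MvPolynomial (Fin (N + 1)) k)).toRingHom
          = (aeval (fun o => Option.elim o s y) : MvPolynomial (Option (Fin (N + 1))) k →ₐ[k]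
              MvPolynomial (Fin (N + 1)) k).toRingHom := by
        apply MvPolynomial.ringHom_ext
        · intro r; simp
        · intro o; cases o <;> simp
      exact congrArg (fun g => g F) h
    have h6 : Q.eval 0 = aeval (fun o => Option.elim o (0 : MvPolynomial (Fin (N + 1)) k) X) F := by
      have h : (Polynomial.evalRingHom (0 : MvPolynomial (Fin (N + 1)) k)).comp
          (aeval (fun o => Option.elim o Polynomial.X (fun i => Polynomial.C (X i))) :
            MvPolynomial (Option (Fin (N + 1))) k →ₐ[k]
              Polynomial (MvPolynomial (Fin (N + 1)) k)).toRingHom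
          = (aeval (fun o => Option.elim o (0 : MvPolynomial (Fin (N + 1)) k) X) :
              MvPolynomial (Option (Fin (N + 1))) k →ₐ[k]
                MvPolynomial (Fin (N + 1)) k).toRingHom := by
        apply MvPolynomial.ringHom_ext
        · intro r; simp
        · intro o; cases o <;> simp
      exact congrArg (fun g => g F) h
    obtain ⟨W, hW⟩ := hPd Q (by rw [h5, hF])
    rw [← h6, hW, Polynomial.eval_mul, ← Polynomial.coeff_zero_eq_eval_zero]
    exact dvd_mul_right _ _

end Pool.Agent.Helper16.VD
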